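import Mathlib

set_option autoImplicit false

/-!
The m-eternal domination game: a graph on 13 vertices which is not defeated in 13 attacks.
-/

namespace Pool.Agent.Results.MP_18a4fa_co.LongDefense

variable {V : Type} [Fintype V] [DecidableEq V]

/-- `D` is a possible response of the defender from the configuration `C`: every guard stays where
it is or crosses exactly one edge, and afterwards the guards stand on pairwise distinct vertices,
which form the set `D`. -/
def Move (G : SimpleGraph V) (C D : Finset V) : Prop :=
  ∃ f : V → V, (∀ x ∈ C, f x = x ∨ G.Adj x (f x)) ∧ Set.InjOn f (C : Set V) ∧ C.image f = D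

/-- The attacker can force a win within at most `k` attacks from the configuration `C`: he can
attack a vertex `a` such that after every response that puts a guard on `a` he can force a win
within `k - 1` further attacks. -/
def AttackerWins (G : SimpleGraph V) : ℕ → Finset V → Prop
  | 0, _ => False
  | k + 1, C => ∃ a : V, ∀ D : Finset V, Move G C D → a ∈ D → AttackerWins G k D

/-- The defender can respond to every attack forever from the configuration `C`: a strategy `σ`
tells the configuration after every finite history of attacks (latest attack first). -/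
def IsEternal (G : SimpleGraph V) (C : Finset V) : Prop :=
  ∃ σ : List V → Finset V, σ [] = C ∧
    ∀ (h : List V) (a : V), Move G (σ h) (σ (a :: h)) ∧ a ∈ σ (a :: h)

/-- The m-eternal domination number: the least size of a configuration from which the defender
wins forever. -/
noncomputable def gammaM (G : SimpleGraph V) : ℕ :=
  sInf {k | ∃ C : Finset V, C.card = k ∧ IsEternal G C}

/-- `G` is defeated in `k` attacks. -/
def DefeatedIn (G : SimpleGraph V) (k : ℕ) : Prop :=
  ∀ C : Finset V, C.card ≤ gammaM G - 1 → AttackerWins G k C

/-! ### The graph and its tables -/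

def nb : List (List ℕ) :=
  [[0, 1, 2, 4, 5, 7, 8, 11],
   [0, 1, 2, 4, 6, 8, 12],
   [0, 1, 2, 5, 10, 12],
   [3, 5, 8, 9, 10, 11, 12],
   [0, 1, 4, 7, 11, 12],
   [0, 2, 3, 5, 9],
   [1, 6, 9, 10],
   [0, 4, 7, 9, 10, 12],
   [0, 1, 3, 8],
   [3, 5, 6, 7, 9, 10, 11],
   [2, 3, 6, 7, 9, 10, 11, 12],
   [0, 3, 4, 9, 10, 11],
   [1, 2, 3, 4, 7, 10, 12]]

def rkT : List ℕ :=
  [0xad00600000000d0000000080ad0d4bad7db80d0d00b0071b80004000000000000bb00000000060a000000d00000d0000000000007700000000000d100d00008000bb00000000008880000080000000000000000,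
   0xd0000030000005000000008000d00090dc08d5d01c2511c080001000000000000c00000c00000020000000000095000000000000100000100030d10c001000800cc00000000000000000000000888000008000,
   0xcb00000000000cb000000000000000000000000000000000000000000000000000000000000000000000000000000000000000000000cc00000000000bb000000000,
   0x30000000000000000000000d00dd0000000000011000000000000000000000000c0000000000000d000000000000000d00000000100000000000000000000000000030d10c001000800d100d000080,
   0xd00700000000000170000000000000000000000000000000000000000000000000000000000000000000d0000000010000000000000000010000010000077000000000,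
   0x9d00000000000500000000000000000000000000000000000000000000000000000000000000000000000000000000000000000000009500000000000d0000000000,
   0x60000000000000000000000000a000000000002000000000000000000000000000000000000000000000000000000000000000000000000000000d0000000000000000200000000060a000000d000,
   0xb00000000000cb0000000000000000000000000000000000000000000000000000000000000000000000000000c00000000000000000c00000c00000bb000000000,
   0xd00000000000000000000000000000000004d000000000010000000000000000000000000000000000000000000000000000000000000000000000000000000000000000000000010000000000040000000000,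
   0xd000000dd000000000005000000000000dd0000000000000d00000000001000000000000cb000000000002000000000000500000000000017000000000001100000000000cbd5d01c2511c08d0d00b0071b80,
   0xa000000000000d000000000000000000000000dd0000000000004000000000000b000000000000a000000000009d000000000d00700000000d00dd00000000000cb000d00090dc08ad0d4bad7db80,
   0xd00000000000500000000000000000000000000000000000000000000000000000000000000000000000000000000000000000000000500000000800d0000000080,
   0xa0000d000000dd000d000000000000000000000000000000000060000000000000000000000000000000000000300000000000000000d00000300000ad006000000]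

def atT : List ℕ :=
  [0x65266b666690602c66c6666405202c652626402c20c6cc6264066cc06c6666906666603636330bc5cc30c32330662c66c0666a06666633606330662266266064066666336360309444933a343000000000000000,
   0x552555b5690950585557577045502555b52704282052885270455550557577095552503b323035558530737303b7b87b70a770a5555533a053036722727750704977773373700300000000000009444933a34300,
   0x688668666096608866766607688044844840768840484484076664406446407666886036360338744430434033664446406407666886336060336644464460076000000000000097777337370036666633636030,
   0x600660660666601121212067601004101204220100210120422624202242047661112021206260200220420472611141406047662222226006560000000000000664446446007667227277507046622662660640,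
   0x55855560665650522226026565508555802856828022280285652520226026565252202602333525222080233366886680066a60000000000000622222260065666886336060335555533a053036666633606330,
   0x6886680666b6601161706167681014140814b2811041408148c664406406447661116080616b6874448008447c000000000000066886680066a661114140604766644464064076b7b87b70a770a662c66c0666a0,
   0x50055085085b505222072275c0500450450455020022042048c524202042245c52522008223330000000000000874448008447c5252220802333020022042047287444304340335558530737303bc5cc30c32330,
   0x55850565665650112021216565101505151856811020212182652520026226560000000000000525220082233361116080616b65252202602333611120212062666886036360335552503b323036666603636330,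
   0x5520556566565052022622656550405445445c224002242245c00000000000005252002622656524202042245c6644064064476525202260265662420224204766644064464076555505575770966cc06c666690,
   0x800280880822801021212188c01004101804220000000000000224002242245c8110202121826020022042048c811041408148c82802228028560100210120422884048448407628205288527042c20c6cc62640,
   0x500550850855500151515185200000000000000100410180422550405445445c5101505151856050045045045581014140814b25508555802856010041012042288044844840765502555b527045202c65262640,
   0x5855565665600000000000005001515151852801021212188c50520226226565011202121656505222072275c60116170616765052222602656601121212067660886676660765058555757704602c66c666640,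
   0x585556566560500550850855080028088082205520556566560558505656656050055085085b06886680666b60558555606656060066066066606886686660960552555b56909065266b666690]

/-- closed neighbourhood -/
def cl (x : ℕ) : List ℕ := nb.getD x []

/-- number of attacks survived from `{x, y, z}` -/
def rk (x y z : ℕ) : ℕ := (rkT.getD x 0 >>> (4 * (13 * y + z))) % 16

/-- the attack chosen at `{x, y, z}` -/
def att (x y z : ℕ) : ℕ := (atT.getD x 0 >>> (4 * (13 * y + z))) % 16

def ck1 : Bool :=
  (List.range 13).all fun x => (List.range 13).all fun y => (List.range 13).all fun z =>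
    !(Nat.blt x y && Nat.blt y z) ||
    (Nat.blt (att x y z) 13 &&
    (cl x).all fun x' => (cl y).all fun y' => (cl z).all fun z' =>
      (!(Nat.beq (att x y z) x' || (Nat.beq (att x y z) y' || Nat.beq (att x y z) z'))) ||
      (Nat.beq x' y' || (Nat.beq x' z' || (Nat.beq y' z' ||
        Nat.blt (rk x' y' z') (rk x y z)))))

def ck2 : Bool :=
  (List.range 13).all fun x => (List.range 13).all fun y => (List.range 13).all fun z =>
    !(Nat.blt x y && Nat.blt y z) || (Nat.beq (rk x y z) 0 ||
    ((List.range 13).all fun a =>
      (cl x).any fun x' => (cl y).any fun y' => (cl z).any fun z' =>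
      (Nat.beq a x' || (Nat.beq a y' || Nat.beq a z')) &&
      (!(Nat.beq x' y') && (!(Nat.beq x' z') && (!(Nat.beq y' z') &&
        Nat.ble (rk x y z) (rk x' y' z' + 1))))))

def ck3 : Bool :=
  (List.range 13).all fun x => (List.range 13).all fun y =>
    (List.range 13).any fun a =>
      (cl x).all fun x' => (cl y).all fun y' =>
      !(Nat.beq a x' || Nat.beq a y') ||
      (List.range 13).any fun b => !((cl x').any (Nat.beq b)) && !((cl y').any (Nat.beq b))

def ck4 : Bool :=
  (List.range 13).all fun x => (List.range 13).all fun y => (List.range 13).all fun z =>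
    Nat.beq (rk x y z) (rk y x z) && Nat.beq (rk x y z) (rk x z y)

theorem ck1_true : ck1 = true := by decide +kernel
theorem ck2_true : ck2 = true := by decide +kernel
theorem ck3_true : ck3 = true := by decide +kernel
theorem ck4_true : ck4 = true := by decide +kernel

theorem rk_swap12 {x y z : ℕ} (hx : x < 13) (hy : y < 13) (hz : z < 13) :
    rk x y z = rk y x z := by
  have h := ck4_true
  simp only [ck4, List.all_eq_true, List.mem_range, Bool.and_eq_true, Nat.beq_eq] at h
  exact (h x hx y hy z hz).1

theorem rk_swap23 {x y z : ℕ} (hx : x < 13) (hy : y < 13) (hz : z < 13) :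
    rk x y z = rk x z y := by
  have h := ck4_true
  simp only [ck4, List.all_eq_true, List.mem_range, Bool.and_eq_true, Nat.beq_eq] at h
  exact (h x hx y hy z hz).2

/-- The graph on 13 vertices. -/
def G : SimpleGraph (Fin 13) where
  Adj x y := x ≠ y ∧ y.val ∈ cl x.val
  symm := ⟨by decide +kernel⟩
  loopless := ⟨fun _ h => h.1 rfl⟩

theorem mem_cl_self (x : Fin 13) : x.val ∈ cl x.val := by
  revert x; decide +kernel

theorem mem_cl_of {x y : Fin 13} (h : y = x ∨ G.Adj x y) : y.val ∈ cl x.val := by
  rcases h with rfl | h
  · exact mem_cl_self _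
  · exact h.2

theorem of_mem_cl {x y : Fin 13} (h : y.val ∈ cl x.val) : y = x ∨ G.Adj x y := by
  by_cases hxy : x = y
  · exact Or.inl hxy.symm
  · exact Or.inr ⟨hxy, h⟩

theorem cl_lt {x y : ℕ} (hx : x < 13) (h : y ∈ cl x) : y < 13 := by
  have H : ∀ x < 13, ∀ y ∈ cl x, y < 13 := by decide +kernel
  exact H x hx y h

/-- `C` is a configuration of three guards of rank `r`. -/
def Good (C : Finset (Fin 13)) (r : ℕ) : Prop :=
  ∃ x y z : Fin 13, x < y ∧ y < z ∧ C = {x, y, z} ∧ rk x y z = r

theorem good_of {x y z : Fin 13} (hxy : x ≠ y) (hxz : x ≠ z) (hyz : y ≠ z) :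
    Good {x, y, z} (rk x y z) := by
  have s12 : ∀ a b c : Fin 13, rk a b c = rk b a c := fun a b c => rk_swap12 a.2 b.2 c.2
  have s23 : ∀ a b c : Fin 13, rk a b c = rk a c b := fun a b c => rk_swap23 a.2 b.2 c.2
  have i12 : ∀ a b c : Fin 13, ({a, b, c} : Finset (Fin 13)) = {b, a, c} := by
    intro a b c; ext t; simp only [Finset.mem_insert, Finset.mem_singleton]; tauto
  have i23 : ∀ a b c : Fin 13, ({a, b, c} : Finset (Fin 13)) = {a, c, b} := by
    intro a b c; ext t; simp only [Finset.mem_insert, Finset.mem_singleton]; tauto
  rcases lt_or_gt_of_ne hxy with h1 | h1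
  · rcases lt_or_gt_of_ne hyz with h2 | h2
    · exact ⟨x, y, z, h1, h2, rfl, rfl⟩
    · rcases lt_or_gt_of_ne hxz with h3 | h3
      · exact ⟨x, z, y, h3, h2, i23 _ _ _, s23 _ _ _⟩
      · refine ⟨z, x, y, h3, h1, ?_, ?_⟩
        · rw [i23, i12]
        · rw [s12, s23]
  · rcases lt_or_gt_of_ne hxz with h2 | h2
    · exact ⟨y, x, z, h1, h2, i12 _ _ _, s12 _ _ _⟩
    · rcases lt_or_gt_of_ne hyz with h3 | h3
      · refine ⟨y, z, x, h3, h2, ?_, ?_⟩
        · rw [i12, i23]
        · rw [s23, s12]
      · refine ⟨z, y, x, h3, h1, ?_, ?_⟩
        · rw [i12, i23, i12]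
        · rw [s12, s23, s12]

theorem good_of_card {C : Finset (Fin 13)} (h : C.card = 3) : ∃ r, Good C r := by
  obtain ⟨x, y, z, hxy, hxz, hyz, rfl⟩ := Finset.card_eq_three.1 h
  exact ⟨_, good_of hxy hxz hyz⟩

/-! ### The defender survives -/

theorem survive : ∀ (r s : ℕ) (C : Finset (Fin 13)), Good C s → r ≤ s → ¬ AttackerWins G r C := by
  intro r
  induction r with
  | zero => intro s C _ _ h; exact h
  | succ r ih =>
    rintro s C ⟨x, y, z, hxy, hyz, rfl, rfl⟩ hr ⟨a, ha⟩
    have h := ck2_true
    simp only [ck2, List.all_eq_true, List.mem_range, Bool.or_eq_true, List.any_eq_true,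
      Bool.and_eq_true, Bool.not_eq_true', Nat.beq_eq, Nat.ble_eq,
      Nat.blt_eq, Bool.and_eq_false_iff] at h
    have h0 := h x x.2 y y.2 z z.2
    rcases h0 with h0 | h0 | h0
    · exfalso
      rcases h0 with h0 | h0
      · have : Nat.blt x y = true := by rw [Nat.blt_eq]; exact hxy
        rw [this] at h0; exact Bool.noConfusion h0
      · have : Nat.blt y z = true := by rw [Nat.blt_eq]; exact hyz
        rw [this] at h0; exact Bool.noConfusion h0
    · omega
    · obtain ⟨x', hx', y', hy', z', hz', ha', hd1, hd2, hd3, hrk⟩ := h0 a a.2
      have lx := cl_lt x.2 hx'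
      have ly := cl_lt y.2 hy'
      have lz := cl_lt z.2 hz'
      have hd1 : x' ≠ y' := by
        intro e; rw [e, Nat.beq_refl] at hd1; exact Bool.noConfusion hd1
      have hd2 : x' ≠ z' := by
        intro e; rw [e, Nat.beq_refl] at hd2; exact Bool.noConfusion hd2
      have hd3 : y' ≠ z' := by
        intro e; rw [e, Nat.beq_refl] at hd3; exact Bool.noConfusion hd3
      have hg : Good {⟨x', lx⟩, ⟨y', ly⟩, ⟨z', lz⟩} (rk x' y' z') :=
        good_of (x := ⟨x', lx⟩) (y := ⟨y', ly⟩) (z := ⟨z', lz⟩)
          (by intro e; exact hd1 (Fin.mk.inj_iff.1 e)) (by intro e; exact hd2 (Fin.mk.inj_iff.1 e))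
          (by intro e; exact hd3 (Fin.mk.inj_iff.1 e))
      refine ih _ _ hg (by omega) (ha _ ?_ ?_)
      · have nxy : x ≠ y := ne_of_lt hxy
        have nyz : y ≠ z := ne_of_lt hyz
        have nxz : x ≠ z := ne_of_lt (hxy.trans hyz)
        refine ⟨fun v => if v = x then ⟨x', lx⟩ else if v = y then ⟨y', ly⟩ else ⟨z', lz⟩,
          ?_, ?_, ?_⟩
        · intro v hv
          simp only [Finset.mem_insert, Finset.mem_singleton] at hv
          rcases hv with rfl | rfl | rfl
          · beta_reduce; rw [if_pos rfl]; exact of_mem_cl hx'
          · beta_reduce; rw [if_neg nxy.symm, if_pos rfl]; exact of_mem_cl hy'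
          · beta_reduce; rw [if_neg nxz.symm, if_neg nyz.symm]; exact of_mem_cl hz'
        · intro u hu v hv huv
          simp only [Finset.coe_insert, Finset.coe_singleton, Set.mem_insert_iff,
            Set.mem_singleton_iff] at hu hv
          rcases hu with rfl | rfl | rfl <;> rcases hv with rfl | rfl | rfl <;>
            simp [nxy, nyz, nxz, nxy.symm, nyz.symm, nxz.symm, Fin.ext_iff, hd1, hd2, hd3,
              hd1.symm, hd2.symm, hd3.symm] at huv ⊢
        · rw [Finset.image_insert, Finset.image_insert, Finset.image_singleton, if_pos rfl,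
            if_neg nxy.symm, if_pos rfl, if_neg nxz.symm, if_neg nyz.symm]
      · simp only [Finset.mem_insert, Finset.mem_singleton, Fin.ext_iff]
        exact ha'

/-! ### The attacker wins against three guards -/

theorem descend {C : Finset (Fin 13)} {r : ℕ} (hC : Good C r) :
    ∃ a : Fin 13, ∀ D, Move G C D → a ∈ D → ∃ s, s < r ∧ Good D s := by
  obtain ⟨x, y, z, hxy, hyz, rfl, rfl⟩ := hC
  have h := ck1_true
  simp only [ck1, List.all_eq_true, List.mem_range, Bool.or_eq_true,
      Bool.and_eq_true, Bool.not_eq_true', Nat.beq_eq,
      Nat.blt_eq, Bool.and_eq_false_iff, Bool.or_eq_false_iff] at h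
  rcases h x x.2 y y.2 z z.2 with h0 | ⟨hlt, h0⟩
  · exfalso
    rcases h0 with h0 | h0
    · have : Nat.blt x y = true := by rw [Nat.blt_eq]; exact hxy
      rw [this] at h0; exact Bool.noConfusion h0
    · have : Nat.blt y z = true := by rw [Nat.blt_eq]; exact hyz
      rw [this] at h0; exact Bool.noConfusion h0
  · refine ⟨⟨att x y z, hlt⟩, ?_⟩
    rintro D ⟨f, hf, hinj, rfl⟩ haD
    have nxy : x ≠ y := ne_of_lt hxy
    have nyz : y ≠ z := ne_of_lt hyz
    have nxz : x ≠ z := ne_of_lt (hxy.trans hyz)
    have mx : x ∈ (({x, y, z} : Finset (Fin 13)) : Set (Fin 13)) := by simp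
    have my : y ∈ (({x, y, z} : Finset (Fin 13)) : Set (Fin 13)) := by simp
    have mz : z ∈ (({x, y, z} : Finset (Fin 13)) : Set (Fin 13)) := by simp
    have e1 : f x ≠ f y := fun e => nxy (hinj mx my e)
    have e2 : f x ≠ f z := fun e => nxz (hinj mx mz e)
    have e3 : f y ≠ f z := fun e => nyz (hinj my mz e)
    have hi : ({x, y, z} : Finset (Fin 13)).image f = {f x, f y, f z} := by
      rw [Finset.image_insert, Finset.image_insert, Finset.image_singleton]
    rw [hi] at haD ⊢
    refine ⟨rk (f x) (f y) (f z), ?_, good_of e1 e2 e3⟩
    have h1 := h0 (f x) (mem_cl_of (hf x (by simp))) (f y) (mem_cl_of (hf y (by simp)))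
      (f z) (mem_cl_of (hf z (by simp)))
    simp only [Finset.mem_insert, Finset.mem_singleton, Fin.ext_iff] at haD
    rcases h1 with ⟨h1, h2, h3⟩ | h1 | h1 | h1 | h1
    · exfalso
      rcases haD with e | e | e
      · rw [← e, Nat.beq_refl] at h1; exact Bool.noConfusion h1
      · rw [← e, Nat.beq_refl] at h2; exact Bool.noConfusion h2
      · rw [← e, Nat.beq_refl] at h3; exact Bool.noConfusion h3
    · exact absurd (Fin.ext h1) e1
    · exact absurd (Fin.ext h1) e2
    · exact absurd (Fin.ext h1) e3
    · exact h1

theorem not_eternal_three {C : Finset (Fin 13)} (h : C.card = 3) : ¬ IsEternal G C := by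
  rintro ⟨σ, rfl, hσ⟩
  have key : ∀ (r : ℕ) (l : List (Fin 13)), ¬ Good (σ l) r := by
    intro r
    induction r using Nat.strong_induction_on with
    | _ r ih =>
      intro l hl
      obtain ⟨a, ha⟩ := descend hl
      obtain ⟨s, hs, hg⟩ := ha _ (hσ l a).1 (hσ l a).2
      exact ih s hs _ hg
  obtain ⟨r, hr⟩ := good_of_card h
  exact key r [] hr

theorem not_eternal_pair (x y : Fin 13) : ¬ IsEternal G {x, y} := by
  rintro ⟨σ, h0, hσ⟩
  have h := ck3_true
  simp only [ck3, List.all_eq_true, List.mem_range, Bool.or_eq_true, List.any_eq_true,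
      Bool.and_eq_true, Bool.not_eq_true', Nat.beq_eq,
      Bool.or_eq_false_iff] at h
  obtain ⟨a, ha, h⟩ := h x x.2 y y.2
  obtain ⟨⟨f, hf, -, hD⟩, haD⟩ := hσ [] ⟨a, ha⟩
  rw [h0] at hf hD
  rw [Finset.image_insert, Finset.image_singleton] at hD
  rw [← hD] at haD
  simp only [Finset.mem_insert, Finset.mem_singleton, Fin.ext_iff] at haD
  rcases h (f x) (mem_cl_of (hf x (by simp))) (f y) (mem_cl_of (hf y (by simp))) with h1 | h1
  · rcases haD with e | e
    · rw [← e, Nat.beq_refl] at h1; exact Bool.noConfusion h1.1
    · rw [← e, Nat.beq_refl] at h1; exact Bool.noConfusion h1.2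
  · obtain ⟨b, hb, hb1, hb2⟩ := h1
    obtain ⟨⟨g, hg, -, hE⟩, hbE⟩ := hσ [⟨a, ha⟩] ⟨b, hb⟩
    rw [← hD] at hg hE
    rw [Finset.image_insert, Finset.image_singleton] at hE
    rw [← hE] at hbE
    simp only [Finset.mem_insert, Finset.mem_singleton, Fin.ext_iff] at hbE
    have aux : ∀ t : ℕ, t < 13 → ∀ l : List ℕ, (l.any (Nat.beq b)) = false → t = b → t ∉ l := by
      intro t _ l hl e hm
      have : l.any (Nat.beq b) = true := by
        rw [List.any_eq_true]
        exact ⟨t, hm, by rw [e, Nat.beq_refl]⟩
      rw [this] at hl; exact Bool.noConfusion hl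
    rcases hbE with e | e
    · exact aux _ (g (f x)).2 _ hb1 e.symm (mem_cl_of (hg (f x) (by simp)))
    · exact aux _ (g (f y)).2 _ hb2 e.symm (mem_cl_of (hg (f y) (by simp)))

theorem not_eternal_empty : ¬ IsEternal G ∅ := by
  rintro ⟨σ, h0, hσ⟩
  obtain ⟨⟨f, -, -, hD⟩, ha⟩ := hσ [] 0
  rw [h0, Finset.image_empty] at hD
  rw [← hD] at ha
  exact absurd ha (Finset.notMem_empty _)

theorem not_eternal_of_card_le {C : Finset (Fin 13)} (h : C.card ≤ 3) : ¬ IsEternal G C := by
  have h' : C.card = 0 ∨ C.card = 1 ∨ C.card = 2 ∨ C.card = 3 := by omega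
  rcases h' with h | h | h | h
  · rw [Finset.card_eq_zero.1 h]; exact not_eternal_empty
  · obtain ⟨x, rfl⟩ := Finset.card_eq_one.1 h
    have := not_eternal_pair x x
    simpa using this
  · obtain ⟨x, y, -, rfl⟩ := Finset.card_eq_two.1 h
    exact not_eternal_pair x y
  · exact not_eternal_three h

theorem eternal_univ : IsEternal G Finset.univ := by
  refine ⟨fun _ => Finset.univ, rfl, fun _ a => ⟨⟨id, ?_, ?_, ?_⟩, Finset.mem_univ _⟩⟩
  · intro x _; exact Or.inl rfl
  · exact Set.injOn_id _
  · exact Finset.image_id

theorem four_le_gammaM : 4 ≤ gammaM G := by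
  have hne : {k | ∃ C : Finset (Fin 13), C.card = k ∧ IsEternal G C}.Nonempty :=
    ⟨_, Finset.univ, rfl, eternal_univ⟩
  obtain ⟨C, hC, hE⟩ := Nat.sInf_mem hne
  by_contra hlt
  refine not_eternal_of_card_le (C := C) ?_ hE
  rw [hC]
  show gammaM G ≤ 3
  omega

theorem connected_G : G.Connected := by
  have h0 : ∀ v : Fin 13, G.Reachable 0 v := by
    have hs : ∀ a b : Fin 13, G.Reachable 0 a → b.val ∈ cl a.val → G.Reachable 0 b := by
      intro a b h hb
      rcases of_mem_cl hb with e | e
      · rw [e]; exact h
      · exact h.trans e.reachable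
    have r0 : G.Reachable 0 0 := SimpleGraph.Reachable.refl _
    have r1 := hs 0 1 r0 (by decide +kernel)
    have r2 := hs 0 2 r0 (by decide +kernel)
    have r4 := hs 0 4 r0 (by decide +kernel)
    have r5 := hs 0 5 r0 (by decide +kernel)
    have r7 := hs 0 7 r0 (by decide +kernel)
    have r8 := hs 0 8 r0 (by decide +kernel)
    have r11 := hs 0 11 r0 (by decide +kernel)
    have r6 := hs 1 6 r1 (by decide +kernel)
    have r12 := hs 1 12 r1 (by decide +kernel)
    have r10 := hs 2 10 r2 (by decide +kernel)
    have r3 := hs 5 3 r5 (by decide +kernel)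
    have r9 := hs 5 9 r5 (by decide +kernel)
    intro v
    fin_cases v
    exacts [r0, r1, r2, r3, r4, r5, r6, r7, r8, r9, r10, r11, r12]
  have : Nonempty (Fin 13) := ⟨0⟩
  exact ⟨fun u v => (h0 u).symm.trans (h0 v)⟩

theorem good_start : Good {0, 9, 12} 13 := by
  refine ⟨0, 9, 12, by decide, by decide, rfl, by decide +kernel⟩

/-- There is a connected graph on `13` vertices which is not defeated in `13` attacks. More
precisely, its m-eternal domination number is at least `4`, yet there is a configuration of `3`
guards from which the attacker cannot force a win within `13` attacks. -/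
theorem result :
    ∃ G : SimpleGraph (Fin 13), G.Connected ∧
      (∃ C : Finset (Fin 13), C.card = 3 ∧ 3 ≤ gammaM G - 1 ∧ ¬ AttackerWins G 13 C) ∧
      ¬ DefeatedIn G (Fintype.card (Fin 13)) := by
  have h4 := four_le_gammaM
  have hs : ¬ AttackerWins G 13 {0, 9, 12} := survive 13 13 _ good_start le_rfl
  have hc : ({0, 9, 12} : Finset (Fin 13)).card = 3 := by decide
  refine ⟨G, connected_G, ⟨{0, 9, 12}, hc, by omega, hs⟩, fun h => ?_⟩
  rw [Fintype.card_fin] at h
  exact hs (h _ (by rw [hc]; omega))

end Pool.Agent.Results.MP_18a4fa_co.LongDefense
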